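import Pool.Agent.Helper50.BL.Stmts
import Pool.Agent.Helper50.BL.Base

/-! # Module CHN: the chain (set systems with small pairwise intersections) -/

namespace Pool.Agent.Helper50.BL

open Finset
open scoped Classical

noncomputable section

/-- abstract summation of the levels -/
theorem chn_sum (D c cnt : ℤ → ℝ) (L M : ℝ)
    (h1 : ∀ l : ℤ, D l - D (l + 1) ≤ (2 : ℝ) ^ l * (cnt l / 100 + 900 * (c l + c (l + 1))))
    (h2 : ∀ G : Finset ℤ, ∑ l ∈ G, (2 : ℝ) ^ l * cnt l ≤ 8 * L)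
    (h3 : ∀ G : Finset ℤ, ∑ l ∈ G, (2 : ℝ) ^ l * c l ≤ M)
    (h4 : ∃ l' : ℤ, ∀ l, l' ≤ l → D l = 0) (l : ℤ) : D l ≤ 8 / 100 * L + 1350 * M := by
  obtain ⟨l', h4⟩ := h4
  obtain ⟨n, hn⟩ : ∃ n : ℕ, l' ≤ l + n := ⟨(l' - l).toNat, by have := Int.self_le_toNat (l' - l); omega⟩
  have htel : ∑ k ∈ range n, (D (l + k) - D (l + (k + 1 : ℕ))) = D l - D (l + n) := by
    have := Finset.sum_range_sub' (fun k : ℕ => D (l + k)) n
    simpa using this
  have hinj : Function.Injective (fun k : ℕ => l + (k : ℤ)) := by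
    intro a b hab
    have : l + (a : ℤ) = l + b := hab
    omega
  have hinj1 : Function.Injective (fun k : ℕ => l + (k : ℤ) + 1) := by
    intro a b hab
    have : l + (a : ℤ) + 1 = l + b + 1 := hab
    omega
  have hA := h2 ((range n).map ⟨_, hinj⟩)
  have hB := h3 ((range n).map ⟨_, hinj⟩)
  have hC := h3 ((range n).map ⟨_, hinj1⟩)
  rw [Finset.sum_map] at hA hB hC
  simp only [Function.Embedding.coeFn_mk] at hA hB hC
  have hle : ∑ k ∈ range n, (D (l + k) - D (l + (k + 1 : ℕ)))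
      ≤ ∑ k ∈ range n, (1 / 100 * ((2 : ℝ) ^ (l + (k : ℤ)) * cnt (l + k))
        + 900 * ((2 : ℝ) ^ (l + (k : ℤ)) * c (l + k))
        + 450 * ((2 : ℝ) ^ (l + (k : ℤ) + 1) * c (l + k + 1))) := by
    refine Finset.sum_le_sum fun k _ => ?_
    have h := h1 (l + k)
    have e : l + ((k + 1 : ℕ) : ℤ) = l + k + 1 := by push_cast; ring
    have e2 : (2 : ℝ) ^ (l + (k : ℤ) + 1) = 2 * (2 : ℝ) ^ (l + (k : ℤ)) := by
      rw [zpow_add_one₀ (by norm_num : (2 : ℝ) ≠ 0)]; ring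
    rw [e, e2]
    calc D (l + k) - D (l + k + 1) ≤ _ := h
      _ = _ := by ring
  rw [htel, h4 _ hn, Finset.sum_add_distrib, Finset.sum_add_distrib, ← Finset.mul_sum,
    ← Finset.mul_sum, ← Finset.mul_sum] at hle
  linarith

theorem chn_gg0 (y : ℝ) (a : SignType) : gg y a 0 = 0 := by
  simp [gg]

theorem chn_round (x : ℝ) (h : |x| < 1 / 2) : round x = 0 := by
  rw [round_eq_zero_iff]
  rw [abs_lt] at h
  constructor
  · linarith [h.1]
  · linarith [h.2]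

theorem st_CHN (hLEV : ST_LEV) (hLV1 : ST_LV1) (hONE : ST_ONE) (hQFC : ST_QFC) (hE1FS : ST_E1FS)
    (hCNT : ST_CNT) (hGB : ST_GB) : ST_CHN := by
  intro V J _ _ _ _ N S Z Bd t Nf K κ Ag γ y ξ hy ht hDeg hK hK0 hκ hAg hγ hγ' hKA hNf hAp hNB lam
  obtain ⟨E, hE, hBd⟩ := hAp lam
  choose F hF1 hF2 hF3 using hE
  set w : V → ℝ := fld S lam univ with hw
  have h2 : ∀ l : ℤ, (0 : ℝ) < (2 : ℝ) ^ l := fun l => zpow_pos (by norm_num) l
  have h16 : ∀ l : ℤ, (2 : ℝ) ^ l / 16 = (2 : ℝ) ^ (l - 4) := by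
    intro l
    rw [zpow_sub₀ (by norm_num : (2 : ℝ) ≠ 0)]
    norm_num
  have hone := fun l : ℤ => hONE V J N S Z t K κ Ag ((2 : ℝ) ^ l) lam (F (l - 4)) ht hDeg hK hK0 hκ
    hAg (h2 l) hKA (fun x => by rw [h16]; exact hF1 (l - 4) x)
  choose r b hr hb hc using hone
  set u : ℤ → V → ℤ := fun l => finw S Z Ag (fun x => ∑ a ∈ F (l - 4), N.φ a x) (r l) with hu
  set v : ℤ → V → ℝ := fun l x => if x ∈ b l then (2 : ℝ) ^ l * (round (w x / (2 : ℝ) ^ l) : ℝ)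
    else (2 : ℝ) ^ l * (u l x : ℝ) with hv
  set H : ℤ → ℝ := fun l => ∑ a ∈ F (l - 4), N.H a + ∑ i, cst κ (r l i) with hH
  -- the sum of the costs
  have hM : ∀ G : Finset ℤ, ∑ l ∈ G, (2 : ℝ) ^ l * (H l + (#(b l) : ℝ))
      ≤ 16 * Bd lam + Rf κ t Ag K Nf * ∑ i ∈ Z, |lam i| := by
    intro G
    have hstep : ∀ l ∈ G, (2 : ℝ) ^ l * (H l + (#(b l) : ℝ)) ≤
        16 * ((2 : ℝ) ^ (l - 4) * E (l - 4))
          + ∑ i ∈ Z, (2 : ℝ) ^ l * E1f κ t Ag K ((2 : ℝ) ^ l) |lam i| := by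
      intro l _
      rw [← Finset.mul_sum]
      have e1 := hF3 (l - 4)
      have e2 := hb l
      have e3 : H l + (#(b l) : ℝ) ≤ E (l - 4)
          + ∑ i ∈ Z, E1f κ t Ag K ((2 : ℝ) ^ l) |lam i| := by
        simp only [hH]
        linarith
      have e4 := mul_le_mul_of_nonneg_left e3 (h2 l).le
      have e5 : (2 : ℝ) ^ l = 16 * (2 : ℝ) ^ (l - 4) := by rw [← h16]; ring
      calc (2 : ℝ) ^ l * (H l + (#(b l) : ℝ)) ≤ _ := e4
        _ = (2 : ℝ) ^ l * E (l - 4) + (2 : ℝ) ^ l * ∑ i ∈ Z, E1f κ t Ag K ((2 : ℝ) ^ l) |lam i| := by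
            ring
        _ = _ := by
            congr 1
            rw [e5]; ring
    refine (Finset.sum_le_sum hstep).trans ?_
    rw [Finset.sum_add_distrib, ← Finset.mul_sum]
    have hinj : Function.Injective (fun l : ℤ => l - 4) := by
      intro a b hab
      have : a - 4 = b - 4 := hab
      omega
    have h5 := hBd (G.map ⟨_, hinj⟩)
    rw [Finset.sum_map] at h5
    simp only [Function.Embedding.coeFn_mk] at h5
    have h6 : ∑ l ∈ G, ∑ i ∈ Z, (2 : ℝ) ^ l * E1f κ t Ag K ((2 : ℝ) ^ l) |lam i|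
        ≤ Rf κ t Ag K Nf * ∑ i ∈ Z, |lam i| := by
      rw [Finset.sum_comm, Finset.mul_sum]
      refine Finset.sum_le_sum fun i _ => ?_
      exact hE1FS κ t Ag K |lam i| Nf G hκ (by exact_mod_cast ht) hAg hK0 (abs_nonneg _) hNf
    linarith
  -- the levels
  have hlev : ∀ l : ℤ, (Gs y ξ (v l) + l1 (v l) / 8) - (Gs y ξ (v (l + 1)) + l1 (v (l + 1)) / 8)
      ≤ (2 : ℝ) ^ l * ((#(univ.filter (fun x => (2 : ℝ) ^ l / 4 ≤ |w x|)) : ℝ) / 100
        + 900 * ((H l + (#(b l) : ℝ)) + (H (l + 1) + (#(b (l + 1)) : ℝ)))) := by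
    intro l
    obtain ⟨Q, q1, q2, q3, q4, q5⟩ := hQFC V J N κ (F (l - 4)) (F (l + 1 - 4)) (r l) (r (l + 1))
    have hf1 : fw1 N.φ S Z Ag Q = u l := by
      have e1 : (fun x => ∑ p ∈ Q, fΦ1 N.φ x p) = fun x => ∑ a ∈ F (l - 4), N.φ a x := funext q1
      have e2 : (fun i => ∑ p ∈ Q, fr1 i p) = r l := funext q3
      simp only [fw1, hu, e1, e2]
    have hf2 : fw2 N.φ S Z Ag Q = u (l + 1) := by
      have e1 : (fun x => ∑ p ∈ Q, fΦ2 N.φ x p) = fun x => ∑ a ∈ F (l + 1 - 4), N.φ a x :=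
        funext q2
      have e2 : (fun i => ∑ p ∈ Q, fr2 i p) = r (l + 1) := funext q4
      simp only [fw2, hu, e1, e2]
    have hL := hLEV V J N S Z Ag κ γ y ξ hκ hγ hγ' hNB Q
    rw [hf1, hf2, q5] at hL
    have h2l : (2 : ℝ) ^ (l + 1) = 2 * (2 : ℝ) ^ l := by
      rw [zpow_add_one₀ (by norm_num : (2 : ℝ) ≠ 0)]; ring
    have hL1 := hLV1 V y ξ w ((2 : ℝ) ^ l) (u l) (u (l + 1)) (b l) (b (l + 1)) hy (h2 l)
      (fun x hx => hc l x hx) (fun x hx => by rw [← h2l]; exact hc (l + 1) x hx)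
    obtain ⟨hL1, hL2⟩ := hL1
    rw [← h2l] at hL1
    have hL1' : Gs y ξ (v l) - Gs y ξ (v (l + 1)) ≤ -(l1 (v l) - l1 (v (l + 1))) / 8
        + (2 : ℝ) ^ l * ∑ x ∈ Dst (u l) (u (l + 1)), inc (y x) (ξ x) (u l x) (u (l + 1) x)
        + 8 * (2 : ℝ) ^ l * ((#(b l) : ℝ) + (#(b (l + 1)) : ℝ)) := hL1
    have hp := h2 l
    have hs : ∑ x ∈ Dst (u l) (u (l + 1)), inc (y x) (ξ x) (u l x) (u (l + 1) x)
        ≤ ((#(univ.filter (fun x => (2 : ℝ) ^ l / 4 ≤ |w x|)) : ℝ) + (#(b l) : ℝ)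
          + (#(b (l + 1)) : ℝ)) / 100 + 900 * (H l + H (l + 1)) := by
      simp only [hH]
      linarith
    have hb1 : (0 : ℝ) ≤ (#(b l) : ℝ) := Nat.cast_nonneg _
    have hb2 : (0 : ℝ) ≤ (#(b (l + 1)) : ℝ) := Nat.cast_nonneg _
    have hs2 := mul_le_mul_of_nonneg_left hs hp.le
    have hb3 := mul_nonneg hp.le (add_nonneg hb1 hb2)
    nlinarith [hs2, hb3, hL1']
  -- the coarse end
  have hend : ∃ l' : ℤ, ∀ l, l' ≤ l → Gs y ξ (v l) + l1 (v l) / 8 = 0 := by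
    obtain ⟨n, hn⟩ : ∃ n : ℕ, 4 * l1 w + 1 < (2 : ℝ) ^ n :=
      pow_unbounded_of_one_lt _ (by norm_num)
    refine ⟨n, fun l hl => ?_⟩
    have hbig : 4 * l1 w + 1 < (2 : ℝ) ^ l := by
      refine hn.trans_le ?_
      rw [← zpow_natCast]
      exact zpow_le_zpow_right₀ (by norm_num) hl
    have hv0 : v l = fun _ => 0 := by
      funext x
      have hx : |w x| ≤ l1 w := Finset.single_le_sum (f := fun x => |w x|)
        (fun i _ => abs_nonneg _) (Finset.mem_univ x)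
      have hx4 : |w x| < (2 : ℝ) ^ l / 4 := by linarith
      by_cases hxb : x ∈ b l
      · have : round (w x / (2 : ℝ) ^ l) = 0 := by
          apply chn_round
          rw [abs_div, abs_of_pos (h2 l), div_lt_iff₀ (h2 l)]
          linarith [h2 l]
        simp only [hv, hxb, if_true, this]
        simp
      · have : u l x = 0 := (hc l x hxb).2 hx4
        simp only [hv, hxb, if_false, this]
        simp
    rw [hv0]
    simp [Gs, l1, chn_gg0]
  -- the sum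
  have hsum := chn_sum (fun l => Gs y ξ (v l) + l1 (v l) / 8)
    (fun l => H l + (#(b l) : ℝ)) (fun l => (#(univ.filter (fun x => (2 : ℝ) ^ l / 4 ≤ |w x|)) : ℝ))
    (l1 w) (16 * Bd lam + Rf κ t Ag K Nf * ∑ i ∈ Z, |lam i|) hlev (fun G => hCNT V w G) hM hend
  -- the fine end
  have hfine : ∀ l : ℤ, Gs y ξ w + l1 w / 8 ≤ Gs y ξ (v l) + l1 (v l) / 8
      + 2 * (2 : ℝ) ^ l * (Fintype.card V : ℝ) := by
    intro l
    have hd : ∀ x, |w x - v l x| ≤ 3 / 4 * (2 : ℝ) ^ l := by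
      intro x
      by_cases hxb : x ∈ b l
      · have e : v l x = (2 : ℝ) ^ l * (round (w x / (2 : ℝ) ^ l) : ℝ) := by
          simp only [hv, hxb, if_true]
        rw [e]
        have h7 := abs_sub_round (w x / (2 : ℝ) ^ l)
        have h8 : w x - (2 : ℝ) ^ l * (round (w x / (2 : ℝ) ^ l) : ℝ)
            = (2 : ℝ) ^ l * (w x / (2 : ℝ) ^ l - (round (w x / (2 : ℝ) ^ l) : ℝ)) := by
          rw [mul_sub, mul_div_cancel₀ _ (h2 l).ne']
        rw [h8, abs_mul, abs_of_pos (h2 l)]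
        nlinarith [h2 l]
      · have e : v l x = (2 : ℝ) ^ l * (u l x : ℝ) := by
          simp only [hv, hxb, if_false]
        rw [e, abs_sub_comm]
        exact (hc l x hxb).1
    have h9 : ∀ x, gg (y x) (ξ x) (w x) + |w x| / 8 ≤ gg (y x) (ξ x) (v l x) + |v l x| / 8
        + 2 * (2 : ℝ) ^ l := by
      intro x
      have g1 := hGB.2.2.2.1 (y x) (w x) (v l x) (ξ x) (hy x)
      have g2 := (abs_le.1 g1).2
      have g3 : |w x| - |v l x| ≤ |w x - v l x| := abs_sub_abs_le_abs_sub _ _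
      have g4 := hd x
      have g5 := h2 l
      linarith
    have h10 := Finset.sum_le_sum (s := (univ : Finset V)) (fun x _ => h9 x)
    simp only [Finset.sum_add_distrib, Finset.sum_const, nsmul_eq_mul, Finset.card_univ,
      ← Finset.sum_div] at h10
    simp only [Gs, l1]
    linarith
  -- the limit
  refine le_of_forall_pos_le_add fun ε hε => ?_
  obtain ⟨n, hn⟩ : ∃ n : ℕ, (2 * (Fintype.card V : ℝ) + 1) / ε < (2 : ℝ) ^ n :=
    pow_unbounded_of_one_lt _ (by norm_num)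
  have hl := hfine (-(n : ℤ))
  have hs := hsum (-(n : ℤ))
  have hsm : 2 * (2 : ℝ) ^ (-(n : ℤ)) * (Fintype.card V : ℝ) ≤ ε := by
    rw [zpow_neg, zpow_natCast]
    have hp : (0 : ℝ) < 2 ^ n := by positivity
    rw [div_lt_iff₀ hε] at hn
    have hcard : (0 : ℝ) ≤ (Fintype.card V : ℝ) := Nat.cast_nonneg _
    rw [show 2 * ((2 : ℝ) ^ n)⁻¹ * (Fintype.card V : ℝ) = (2 * (Fintype.card V : ℝ)) / 2 ^ n by
      field_simp]
    rw [div_le_iff₀ hp]
    nlinarith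
  linarith

end

end Pool.Agent.Helper50.BL
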